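import Pool.Agent.H70.FS.Cert

/-!
# The certificate for multiplicities at most `4` (constant `5 / 4`)
-/

set_option autoImplicit false

namespace Pool.Agent.H70.FS

def S4 : List ℕ := [
  139520, 131072, 69632, 65536, 0, 69904, 69888, 135440, 135424, 135168, 139264, 204800, 139792,
  139776, 139536, 200960, 200704, 205312, 205072, 205056, 205328]

def G4 : List (ℕ × ℕ) := [
  (0, 9090), (65536, 3305), (69632, 2875), (135168, 1421), (69888, 2788), (135424, 592)]

def M4 : List (ℕ × ℕ × ℕ) := [
  (131072, 135168, 13220), (200704, 204800, 5684), (139264, 139520, 11500),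
  (204800, 205056, 11368), (200960, 205056, 2368), (139520, 139536, 6363),
  (139520, 205056, 14569), (139776, 139792, 11152), (205312, 205328, 2368)]

def Q4 : List (ℕ × ℕ × ℕ) := [
  (69632, 205328, 4735), (135168, 139792, 22304), (69888, 205072, 5684), (135424, 139536, 17860),
  (69904, 205056, 36357), (139520, 135440, 13220)]

theorem ok4 : check 4 5 4 100000 S4 G4 M4 Q4 = true := by
  decide +kernel

end Pool.Agent.H70.FS
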