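import Pool.Agent.H70.FS.Cert

/-!
# The certificate for multiplicities at most `5` (constant `131 / 100`)
-/

set_option autoImplicit false

namespace Pool.Agent.H70.FS

def S5 : List ℕ := [
  3280896, 2232576, 2097152, 1118208, 1048576, 0, 1114112, 1118480, 1118464, 2167056, 2166784,
  2162688, 2167040, 2232320, 2228224, 3145728, 2236688, 2236416, 2232592, 2236672, 2236944,
  2236928, 3215616, 3215360, 3211264, 3276800, 3215632, 3350784, 3285520, 3285248, 3281168,
  3281152, 3284992, 3285504, 3285264, 3346688, 3346432, 3342336, 3350528, 3346704, 4395008,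
  4325376, 3351040, 3350800, 3351056, 4390912, 4329472, 4399104, 4395280, 4395264, 4399376,
  4399360]

def G5 : List (ℕ × ℕ) := [
  (0, 271002), (1048576, 73442), (2097152, 19902), (1114112, 73442), (2162688, 39805),
  (1118208, 73442), (2228224, 19902), (2166784, 22575), (1118464, 66441), (3276800, 16180),
  (2232320, 26002), (2167040, 25468), (3280896, 9650), (2232576, 31791)]

def M5 : List (ℕ × ℕ × ℕ) := [
  (3145728, 3211264, 1990200), (3211264, 3215360, 7960900), (3215360, 3215616, 4197972),
  (3215360, 3280896, 8010628), (1118480, 2167056, 10186632), (4325376, 4329472, 1618000),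
  (3342336, 3346432, 1990200), (2236416, 2236672, 3079983), (2236416, 3284992, 4264217),
  (3215616, 3281152, 8734972), (4390912, 4395008, 1618000), (4329472, 4395008, 2583000),
  (3346432, 4395008, 6580600), (3284992, 3285248, 2539858), (3284992, 3350528, 3981859),
  (2236672, 2236688, 11097490), (3215632, 3281168, 1990200), (4395008, 4399104, 13364600),
  (3350528, 3350784, 6582059), (3346688, 3350784, 5169300), (2236928, 2236944, 6644100),
  (4399104, 4399360, 14329600), (4395264, 4399360, 1618000), (3285504, 3285520, 2546800),
  (3346704, 3350800, 1990200), (3351040, 3351056, 3179100), (4395280, 4399376, 1618000)]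

def Q5 : List (ℕ × ℕ × ℕ) := [
  (2166784, 3351056, 6358200), (1118464, 4399376, 2583000), (2232320, 3285520, 5093600),
  (2167040, 3350800, 4590400), (1118480, 4399360, 16912600), (3280896, 2236944, 13287978),
  (2232576, 3285264, 2257421), (2167056, 3350784, 17530659), (3281152, 2236688, 18441372),
  (2236672, 3281168, 5970700), (2232592, 3285248, 7344158)]

theorem ok5 : check 5 131 100 100000000 S5 G5 M5 Q5 = true := by
  decide +kernel

end Pool.Agent.H70.FS
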