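import Pool.Agent.H81.RE.Close

/-!
# Multiplicities at most two

If `s ≤ 2` and the sums of `s` are at least `n` at every vertex, then some digon has the total
multiplicity at least three, and it is a closed walk of the required kind.
-/

set_option autoImplicit false

namespace Pool.Agent.H70.FS

open Finset Pool.Agent.H81.RD Pool.Agent.H81.RE

theorem closed_two {V : Type} [DecidableEq V] [Fintype V] {s : V → V → ℕ}
    (hs0 : ∀ u, s u u = 0) (hK : ∀ u y, s u y ≤ 2) (hV : 0 < Fintype.card V)
    (hB : ∀ u, Fintype.card V ≤ ∑ y, s u y) :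
    ∃ (v : V) (N : ℕ → ℕ) (L : ℕ), 0 < L ∧ W s v N L v ∧ ∀ T : ℕ, N T ≤ T := by
  classical
  obtain ⟨u, y, huy⟩ : ∃ u y, 3 ≤ s u y + s y u := by
    by_contra hcon
    push Not at hcon
    have h1 : ∑ u, ∑ y, (s u y + s y u) ≤ ∑ u : V, ∑ y : V, if u = y then 0 else 2 :=
      sum_le_sum fun u _ => sum_le_sum fun y _ => by
        split_ifs with h
        · rw [h, hs0]
        · have := hcon u y
          omega
    have h2 : ∑ u, ∑ y, (s u y + s y u) = ∑ u, ∑ y, s u y + ∑ u, ∑ y, s u y := by
      simp only [sum_add_distrib]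
      congr 1
      exact sum_comm
    have h3 : Fintype.card V * Fintype.card V ≤ ∑ u, ∑ y, s u y := by
      calc Fintype.card V * Fintype.card V = ∑ u : V, Fintype.card V := by
            rw [sum_const, card_univ, smul_eq_mul]
        _ ≤ _ := sum_le_sum fun u _ => hB u
    have h4 : ∑ u : V, ∑ y : V, (if u = y then 0 else 2) =
        Fintype.card V * (2 * (Fintype.card V - 1)) := by
      have h5 : ∀ u : V, ∑ y : V, (if u = y then 0 else 2) = 2 * (Fintype.card V - 1) := by
        intro u
        have h6 : ∑ y : V, (if u = y then 0 else 2) = ∑ y ∈ univ.erase u, 2 := by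
          rw [← add_sum_erase univ _ (mem_univ u), if_pos rfl, zero_add]
          refine sum_congr rfl fun y hy => ?_
          rw [if_neg (Ne.symm (ne_of_mem_erase hy))]
        rw [h6, sum_const, card_erase_of_mem (mem_univ u), card_univ, smul_eq_mul, mul_comm]
      rw [sum_congr rfl fun u _ => h5 u, sum_const, card_univ, smul_eq_mul]
    rw [h2, h4] at h1
    obtain ⟨m, hm⟩ := Nat.exists_eq_succ_of_ne_zero hV.ne'
    rw [hm] at h1 h3
    simp only [Nat.succ_eq_add_one, Nat.add_sub_cancel] at h1 h3
    nlinarith
  have h1 := hK u y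
  have h2 := hK y u
  refine ⟨u, _, _, ?_, W.step (W.step (W.refl (s := s) (v := u)) (show 0 < s u y by omega))
    (show 0 < s y u by omega), fun T => ?_⟩
  · omega
  · split_ifs <;> omega

end Pool.Agent.H70.FS
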