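import Pool.Agent.H70.FS.D3
import Pool.Agent.H70.FS.D4
import Pool.Agent.H70.FS.D5
import Pool.Agent.H70.FS.D6
import Pool.Agent.H70.FS.D7
import Pool.Agent.H70.FS.D8
import Pool.Agent.H70.FS.Two
import Pool.Agent.H81.RD.Main
import Pool.Agent.H81.CP.Close

/-!
# Truncated multiplicities
-/

set_option autoImplicit false

namespace Pool.Agent.H70.FS

open Finset Pool.Agent.H81.RD Pool.Agent.H81.RE

/-- a walk for smaller multiplicities is a walk with smaller numbers -/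
theorem W_of_le {V : Type} {s s' : V → V → ℕ} (h : ∀ u y, s' u y ≤ s u y) {v y : V} {N : ℕ → ℕ}
    {L : ℕ} (hW : W s' v N L y) : ∃ N' : ℕ → ℕ, W s v N' L y ∧ ∀ T, N' T ≤ N T := by
  induction hW with
  | refl => exact ⟨_, W.refl, fun T => le_rfl⟩
  | @step N L u y _ hu ih =>
    obtain ⟨N', h1, h2⟩ := ih
    refine ⟨_, W.step h1 (lt_of_lt_of_le hu (h u y)), fun T => ?_⟩
    have h3 := h2 T
    have h4 := h u y
    show N' T + _ ≤ N T + _
    split_ifs <;> omega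

theorem closed_of_le {V : Type} {s s' : V → V → ℕ} (h : ∀ u y, s' u y ≤ s u y)
    (hc : ∃ (v : V) (N : ℕ → ℕ) (L : ℕ), 0 < L ∧ W s' v N L v ∧ ∀ T : ℕ, N T ≤ T) :
    ∃ (v : V) (N : ℕ → ℕ) (L : ℕ), 0 < L ∧ W s v N L v ∧ ∀ T : ℕ, N T ≤ T := by
  obtain ⟨v, N, L, hL, hW, hN⟩ := hc
  obtain ⟨N', h1, h2⟩ := W_of_le h hW
  exact ⟨v, N', L, hL, h1, fun T => (h2 T).trans (hN T)⟩

theorem few_of_check {K p q U : ℕ} {S : List ℕ} {G : List (ℕ × ℕ)} {M Q : List (ℕ × ℕ × ℕ)}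
    (hc : check K p q U S G M Q = true) (hq : 0 < q) {n : ℕ} (hn : 2 ≤ n)
    {s : Fin n → Fin n → ℕ} (hs : ∀ u, s u u = 0)
    (h : ∀ v : Fin n, ((p : ℝ) / q) * n ≤ ∑ y, ((min (s v y) K : ℕ) : ℝ)) :
    ∃ (v : Fin n) (N : ℕ → ℕ) (L : ℕ), 0 < L ∧ W s v N L v ∧ ∀ T : ℕ, N T ≤ T := by
  refine closed_of_le (s' := fun u y => min (s u y) K) (fun u y => min_le_left _ _) ?_
  refine closed_of_check hc hq (fun u => by rw [hs, Nat.zero_min]) (fun u y => min_le_right _ _)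
    univ (by rw [card_univ, Fintype.card_fin]; exact hn) ?_
  intro u _
  rw [card_univ, Fintype.card_fin]
  refine le_trans ?_ (h u)
  have h1 : (0 : ℝ) ≤ (p : ℝ) / q := by positivity
  nlinarith

theorem few_two {n : ℕ} (hn : 0 < n) {s : Fin n → Fin n → ℕ} (hs : ∀ u, s u u = 0)
    (h : ∀ v : Fin n, n ≤ ∑ y, min (s v y) 2) :
    ∃ (v : Fin n) (N : ℕ → ℕ) (L : ℕ), 0 < L ∧ W s v N L v ∧ ∀ T : ℕ, N T ≤ T := by
  refine closed_of_le (s' := fun u y => min (s u y) 2) (fun u y => min_le_left _ _) ?_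
  exact closed_two (fun u => by rw [hs, Nat.zero_min]) (fun u y => min_le_right _ _)
    (by rw [Fintype.card_fin]; exact hn) (fun u => by rw [Fintype.card_fin]; exact h u)

end Pool.Agent.H70.FS
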