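import Pool.Agent.H70.FS.Frame

/-!
# Linear certificates

A number `k` codes the function `ev K k T` = digit of `k` (base `16`) at the place `min T K`. A
certificate consists of nonnegative weights for the inequalities of `Frame`; `check` verifies
(by computation) that their sum is contradictory.
-/

set_option autoImplicit false

namespace Pool.Agent.H70.FS

open Finset Pool.Agent.H81.RD Pool.Agent.H81.RE

/-- a digit -/
def dig (k T : ℕ) : ℕ := k / 16 ^ T % 16

/-- the function coded by `k` -/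
def ev (K k T : ℕ) : ℕ := dig k (min T K)

/-- the code of `e_j` -/
def ee (K j : ℕ) : ℕ := (16 ^ (K + 1) - 16 ^ (j + 1)) / 15

/-- all numbers `< n` -/
def allB : ℕ → (ℕ → Bool) → Bool
  | 0, _ => true
  | n + 1, f => f n && allB n f

/-- search trees with two numbers at each node -/
inductive Tr : Type
  | leaf : Tr
  | node : Tr → ℕ → ℕ → ℕ → Tr → Tr

/-- add to the node with key `k` -/
def Tr.add : Tr → ℕ → ℕ → ℕ → Tr
  | Tr.leaf, k, a, b => Tr.node Tr.leaf k a b Tr.leaf
  | Tr.node l k' a' b' r, k, a, b =>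
      if k = k' then Tr.node l k' (a' + a) (b' + b) r
      else if k < k' then Tr.node (Tr.add l k a b) k' a' b' r
      else Tr.node l k' a' b' (Tr.add r k a b)

/-- the same, with a continuation -/
def Tr.addK : Tr → ℕ → ℕ → ℕ → (Tr → Bool) → Bool
  | Tr.leaf, k, a, b, f => f (Tr.node Tr.leaf k a b Tr.leaf)
  | Tr.node l k' a' b' r, k, a, b, f =>
      if k = k' then f (Tr.node l k' (a' + a) (b' + b) r)
      else if k < k' then Tr.addK l k a b (fun l' => f (Tr.node l' k' a' b' r))
      else Tr.addK r k a b (fun r' => f (Tr.node l k' a' b' r'))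

theorem Tr.addK_eq (t : Tr) (k a b : ℕ) : ∀ f : Tr → Bool, t.addK k a b f = f (t.add k a b) := by
  induction t with
  | leaf => intro f; rfl
  | node l k' a' b' r ihl ihr =>
    intro f
    unfold Tr.addK Tr.add
    split_ifs with h1 h2
    · rfl
    · rw [ihl]
    · rw [ihr]

/-- all `a ≤ b` -/
def Tr.ok : Tr → Bool
  | Tr.leaf => true
  | Tr.node l _ a b r => Nat.ble a b && (Tr.ok l && Tr.ok r)

/-- the linear form -/
noncomputable def Tr.val (L : ℕ → ℝ) : Tr → ℝ
  | Tr.leaf => 0
  | Tr.node l k a b r => ((a : ℝ) - b) * L k + (Tr.val L l + Tr.val L r)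

theorem Tr.val_add (L : ℕ → ℝ) (t : Tr) (k a b : ℕ) :
    (t.add k a b).val L = t.val L + ((a : ℝ) - b) * L k := by
  induction t with
  | leaf => simp [Tr.add, Tr.val]
  | node l k' a' b' r ihl ihr =>
    unfold Tr.add
    split_ifs with h1 h2
    · subst h1
      simp only [Tr.val]
      push_cast
      ring
    · simp only [Tr.val, ihl]
      ring
    · simp only [Tr.val, ihr]
      ring

theorem Tr.val_nonpos {L : ℕ → ℝ} (hL : ∀ k, 0 ≤ L k) (t : Tr) (h : t.ok = true) :
    t.val L ≤ 0 := by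
  induction t with
  | leaf => simp [Tr.val]
  | node l k a b r ihl ihr =>
    simp only [Tr.ok, Bool.and_eq_true, Nat.ble_eq] at h
    obtain ⟨h1, h2, h3⟩ := h
    have h4 : (a : ℝ) ≤ b := by exact_mod_cast h1
    have h5 := mul_nonneg (sub_nonneg.mpr h4) (hL k)
    simp only [Tr.val]
    linarith [ihl h2, ihr h3]

/-- add the children of `k` with the weight `w` -/
def addCh (K k w : ℕ) : ℕ → Tr → Tr
  | 0, t => t
  | j + 1, t => addCh K k w j (t.add (k + ee K j) 0 w)

/-- the same, with a continuation -/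
def addChK (K k w : ℕ) : ℕ → Tr → (Tr → Bool) → Bool
  | 0, t, f => f t
  | j + 1, t, f => t.addK (k + ee K j) 0 w fun t1 => addChK K k w j t1 f

theorem addChK_eq (K k w : ℕ) (n : ℕ) : ∀ (t : Tr) (f : Tr → Bool),
    addChK K k w n t f = f (addCh K k w n t) := by
  induction n with
  | zero => intro t f; rfl
  | succ n ih =>
    intro t f
    rw [addChK, Tr.addK_eq, ih, addCh]

theorem addCh_val (L : ℕ → ℝ) (K k w : ℕ) (n : ℕ) : ∀ t : Tr,
    (addCh K k w n t).val L = t.val L - w * ∑ j ∈ range n, L (k + ee K j) := by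
  induction n with
  | zero => intro t; simp [addCh]
  | succ n ih =>
    intro t
    rw [addCh, ih, Tr.val_add, sum_range_succ]
    push_cast
    ring

/-- the growth inequalities -/
def addG (K p q : ℕ) : List (ℕ × ℕ) → Tr → Tr
  | [], t => t
  | (k, w) :: l, t => addG K p q l (addCh K k (q * w) K (t.add k (w * (q * K - p)) 0))

/-- the monotonicity inequalities -/
def addM : List (ℕ × ℕ × ℕ) → Tr → Tr
  | [], t => t
  | (a, b, w) :: l, t => addM l ((t.add a w 0).add b 0 w)

/-- the pair inequalities -/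
def addQ : List (ℕ × ℕ × ℕ) → Tr → Tr
  | [], t => t
  | (a, b, w) :: l, t => addQ l ((t.add a w 0).add b w 0)

/-- the growth inequalities, with a continuation -/
def addGK (K p q : ℕ) : List (ℕ × ℕ) → Tr → (Tr → Bool) → Bool
  | [], t, f => f t
  | (k, w) :: l, t, f => t.addK k (w * (q * K - p)) 0 fun t1 =>
      addChK K k (q * w) K t1 fun t2 => addGK K p q l t2 f

/-- the monotonicity inequalities, with a continuation -/
def addMK : List (ℕ × ℕ × ℕ) → Tr → (Tr → Bool) → Bool
  | [], t, f => f t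
  | (a, b, w) :: l, t, f => t.addK a w 0 fun t1 => t1.addK b 0 w fun t2 => addMK l t2 f

/-- the pair inequalities, with a continuation -/
def addQK : List (ℕ × ℕ × ℕ) → Tr → (Tr → Bool) → Bool
  | [], t, f => f t
  | (a, b, w) :: l, t, f => t.addK a w 0 fun t1 => t1.addK b w 0 fun t2 => addQK l t2 f

theorem addGK_eq (K p q : ℕ) (G : List (ℕ × ℕ)) : ∀ (t : Tr) (f : Tr → Bool),
    addGK K p q G t f = f (addG K p q G t) := by
  induction G with
  | nil => intro t f; rfl
  | cons g l ih =>
    obtain ⟨k, w⟩ := g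
    intro t f
    rw [addGK, Tr.addK_eq, addChK_eq, ih, addG]

theorem addMK_eq (M : List (ℕ × ℕ × ℕ)) : ∀ (t : Tr) (f : Tr → Bool),
    addMK M t f = f (addM M t) := by
  induction M with
  | nil => intro t f; rfl
  | cons g l ih =>
    obtain ⟨a, b, w⟩ := g
    intro t f
    rw [addMK, Tr.addK_eq, Tr.addK_eq, ih, addM]

theorem addQK_eq (Q : List (ℕ × ℕ × ℕ)) : ∀ (t : Tr) (f : Tr → Bool),
    addQK Q t f = f (addQ Q t) := by
  induction Q with
  | nil => intro t f; rfl
  | cons g l ih =>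
    obtain ⟨a, b, w⟩ := g
    intro t f
    rw [addQK, Tr.addK_eq, Tr.addK_eq, ih, addQ]

/-- the sum of the weights -/
def sumQ : List (ℕ × ℕ × ℕ) → ℕ
  | [] => 0
  | (_, _, w) :: l => w + sumQ l

/-- the seed -/
def seed : List ℕ → Tr → Tr
  | [], t => t
  | k :: l, t => seed l (t.add k 0 0)

/-- the seed, with a continuation -/
def seedK : List ℕ → Tr → (Tr → Bool) → Bool
  | [], t, f => f t
  | k :: l, t, f => t.addK k 0 0 fun t1 => seedK l t1 f

theorem seedK_eq (S : List ℕ) : ∀ (t : Tr) (f : Tr → Bool), seedK S t f = f (seed S t) := by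
  induction S with
  | nil => intro t f; rfl
  | cons k l ih =>
    intro t f
    rw [seedK, Tr.addK_eq, ih, seed]

def okG (K : ℕ) : List (ℕ × ℕ) → Bool
  | [] => true
  | (k, _) :: l => allB K (fun j => allB (K + 1) fun T =>
      dig (k + ee K j) T == dig k T + (if j < T then 1 else 0)) && okG K l

def okM (K : ℕ) : List (ℕ × ℕ × ℕ) → Bool
  | [] => true
  | (a, b, _) :: l => allB (K + 1) (fun T => Nat.ble (dig a T) (dig b T)) && okM K l

def okQ (K : ℕ) : List (ℕ × ℕ × ℕ) → Bool
  | [] => true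
  | (a, b, _) :: l => allB (K + 1) (fun T => Nat.ble (dig a T + dig b T) T) && okQ K l

/-- the complete check -/
def check (K p q U : ℕ) (S : List ℕ) (G : List (ℕ × ℕ)) (M Q : List (ℕ × ℕ × ℕ)) : Bool :=
  Nat.ble p (q * K) && (Nat.ble (U + 1) (sumQ Q) && (okG K G && (okM K M && (okQ K Q &&
    seedK S Tr.leaf fun t => t.addK 0 0 U fun t1 => addGK K p q G t1 fun t2 =>
      addMK M t2 fun t3 => addQK Q t3 Tr.ok))))

theorem allB_iff {n : ℕ} {f : ℕ → Bool} : allB n f = true ↔ ∀ i < n, f i = true := by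
  induction n with
  | zero => simp [allB]
  | succ n ih =>
    rw [allB, Bool.and_eq_true, ih]
    constructor
    · rintro ⟨h1, h2⟩ i hi
      rcases Nat.lt_succ_iff_lt_or_eq.mp hi with h | h
      · exact h2 i h
      · rw [h]; exact h1
    · intro h
      exact ⟨h n (by omega), fun i hi => h i (by omega)⟩

theorem seed_val (L : ℕ → ℝ) (S : List ℕ) : ∀ t : Tr, (seed S t).val L = t.val L := by
  induction S with
  | nil => intro t; rfl
  | cons k l ih =>
    intro t
    rw [seed, ih, Tr.val_add]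
    simp

theorem addG_val {L : ℕ → ℝ} {K p q : ℕ} (hpq : p ≤ q * K) (hq : 0 < q)
    (hL : ∀ k, (allB K (fun j => allB (K + 1) fun T =>
      dig (k + ee K j) T == dig k T + (if j < T then 1 else 0))) = true →
      ∑ j ∈ range K, L (k + ee K j) ≤ (K - (p : ℝ) / q) * L k) (G : List (ℕ × ℕ)) :
    ∀ t : Tr, okG K G = true → t.val L ≤ (addG K p q G t).val L := by
  induction G with
  | nil => intro t _; exact le_rfl
  | cons g l ih =>
    obtain ⟨k, w⟩ := g
    intro t h
    rw [okG, Bool.and_eq_true] at h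
    refine le_trans ?_ (ih _ h.2)
    rw [addCh_val, Tr.val_add]
    have h1 := hL k h.1
    have hqr : (0 : ℝ) < q := by exact_mod_cast hq
    have h2 : (((w * (q * K - p) : ℕ) : ℝ)) = w * (q * K - p) := by
      rw [Nat.cast_mul, Nat.cast_sub hpq]
      push_cast
      ring
    rw [h2]
    push_cast
    have h3 := mul_le_mul_of_nonneg_left h1 (by positivity : (0 : ℝ) ≤ q * w)
    have h4 : (q : ℝ) * w * ((K - (p : ℝ) / q) * L k) = w * (q * K - p) * L k := by
      field_simp
    rw [h4] at h3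
    linarith

theorem addM_val {L : ℕ → ℝ} {K : ℕ}
    (hL : ∀ a b, allB (K + 1) (fun T => Nat.ble (dig a T) (dig b T)) = true → L b ≤ L a)
    (M : List (ℕ × ℕ × ℕ)) :
    ∀ t : Tr, okM K M = true → t.val L ≤ (addM M t).val L := by
  induction M with
  | nil => intro t _; exact le_rfl
  | cons g l ih =>
    obtain ⟨a, b, w⟩ := g
    intro t h
    rw [okM, Bool.and_eq_true] at h
    refine le_trans ?_ (ih _ h.2)
    rw [Tr.val_add, Tr.val_add]
    have h1 := mul_le_mul_of_nonneg_left (hL a b h.1) (Nat.cast_nonneg w (α := ℝ))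
    push_cast
    linarith

theorem addQ_val {L : ℕ → ℝ} {K : ℕ} {P : ℝ}
    (hL : ∀ a b, allB (K + 1) (fun T => Nat.ble (dig a T + dig b T) T) = true → P ≤ L a + L b)
    (Q : List (ℕ × ℕ × ℕ)) :
    ∀ t : Tr, okQ K Q = true → t.val L + sumQ Q * P ≤ (addQ Q t).val L := by
  induction Q with
  | nil =>
    intro t _
    rw [sumQ, addQ]
    simp
  | cons g l ih =>
    obtain ⟨a, b, w⟩ := g
    intro t h
    rw [okQ, Bool.and_eq_true] at h
    have h2 := ih ((t.add a w 0).add b w 0) h.2
    rw [Tr.val_add, Tr.val_add] at h2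
    have h1 := mul_le_mul_of_nonneg_left (hL a b h.1) (Nat.cast_nonneg w (α := ℝ))
    rw [addQ, sumQ]
    push_cast at h2 ⊢
    linarith

/-- a certificate is contradictory -/
theorem check_false {L : ℕ → ℝ} {K p q U : ℕ} {P : ℝ} {S : List ℕ} {G : List (ℕ × ℕ)}
    {M Q : List (ℕ × ℕ × ℕ)} (hc : check K p q U S G M Q = true) (hq : 0 < q) (hP : 0 < P)
    (h0 : ∀ k, 0 ≤ L k) (hroot : L 0 ≤ P)
    (hG : ∀ k, (allB K (fun j => allB (K + 1) fun T =>
      dig (k + ee K j) T == dig k T + (if j < T then 1 else 0))) = true →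
      ∑ j ∈ range K, L (k + ee K j) ≤ (K - (p : ℝ) / q) * L k)
    (hM : ∀ a b, allB (K + 1) (fun T => Nat.ble (dig a T) (dig b T)) = true → L b ≤ L a)
    (hQ : ∀ a b, allB (K + 1) (fun T => Nat.ble (dig a T + dig b T) T) = true →
      P ≤ L a + L b) : False := by
  unfold check at hc
  simp only [Bool.and_eq_true, seedK_eq, Tr.addK_eq, addGK_eq, addMK_eq, addQK_eq] at hc
  obtain ⟨h1, h2, h3, h4, h5, h6⟩ := hc
  have a1 := Tr.val_nonpos h0 _ h6
  have a2 := addQ_val hQ Q (addM M (addG K p q G ((seed S Tr.leaf).add 0 0 U))) h5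
  have a3 := addM_val hM M (addG K p q G ((seed S Tr.leaf).add 0 0 U)) h4
  have a4 := addG_val (Nat.le_of_ble_eq_true h1) hq hG G ((seed S Tr.leaf).add 0 0 U) h3
  rw [Tr.val_add, seed_val, Tr.val] at a4
  have h7 : (U : ℝ) + 1 ≤ sumQ Q := by exact_mod_cast Nat.le_of_ble_eq_true h2
  have h8 := mul_le_mul_of_nonneg_right h7 hP.le
  have h9 := mul_le_mul_of_nonneg_left hroot (Nat.cast_nonneg U (α := ℝ))
  push_cast at a4
  linarith

variable {V : Type}

/-- **Closed walks from certificates.** -/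
theorem closed_of_check [DecidableEq V] {s : V → V → ℕ} {K p q U : ℕ} {S : List ℕ}
    {G : List (ℕ × ℕ)} {M Q : List (ℕ × ℕ × ℕ)} (hc : check K p q U S G M Q = true) (hq : 0 < q)
    (hs0 : ∀ u, s u u = 0) (hK : ∀ u y, s u y ≤ K) (B : Finset V) (hB2 : 2 ≤ B.card)
    (hB : ∀ u ∈ B, ((p : ℝ) / q) * ((B.card : ℝ) - 1) ≤ ∑ y ∈ B, (s u y : ℝ)) :
    ∃ (v : V) (N : ℕ → ℕ) (L : ℕ), 0 < L ∧ W s v N L v ∧ ∀ T : ℕ, N T ≤ T := by
  refine minimal_ind hs0 ?_ _ B rfl hB2 hB
  clear hB2 hB B
  intro B hB2 _ hexit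
  by_contra hcon
  push Not at hcon
  have hn : (2 : ℝ) ≤ B.card := by exact_mod_cast hB2
  have hn0 : 0 < (B.card : ℝ) * ((B.card : ℝ) - 1) := mul_pos (by linarith) (by linarith)
  refine check_false (L := fun k => LL s B (ev K k)) hc hq hn0 (fun k => LL_nonneg _ _ _)
    (LL_le _) ?_ ?_ ?_
  · intro k hk
    rw [allB_iff] at hk
    have h1 := LL_grow hK hexit (ev K k)
    refine le_trans (le_of_eq ?_) h1
    refine sum_congr rfl fun j hj => ?_
    have h2 := hk j (mem_range.mp hj)
    rw [allB_iff] at h2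
    congr 1
    funext T
    have h3 := h2 (min T K) (by omega)
    rw [beq_iff_eq] at h3
    unfold ev
    rw [h3]
    have h4 := mem_range.mp hj
    have h5 : (j < min T K) ↔ (j < T) := by omega
    simp only [h5]
  · intro a b hab
    rw [allB_iff] at hab
    refine LL_mono fun T => ?_
    exact Nat.le_of_ble_eq_true (hab (min T K) (by omega))
  · intro a b hab
    rw [allB_iff] at hab
    refine LL_pair (fun v N L hL hW => hcon v N L hL hW) fun T => ?_
    have h1 := Nat.le_of_ble_eq_true (hab (min T K) (by omega))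
    unfold ev
    omega

end Pool.Agent.H70.FS
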