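import Pool.Agent.H70.FS.Cert

/-!
# The certificate for multiplicities at most `3` (constant `59 / 50`)
-/

set_option autoImplicit false

namespace Pool.Agent.H70.FS

def S3 : List ℕ := [
  4368, 4096, 0, 4352, 8448, 8192, 8464]

def G3 : List (ℕ × ℕ) := [
  (0, 1098), (4096, 603)]

def M3 : List (ℕ × ℕ × ℕ) := [
  (8192, 8448, 30150), (8448, 8464, 15094), (4368, 8464, 9660)]

def Q3 : List (ℕ × ℕ × ℕ) := [
  (4352, 8464, 54900), (8448, 4368, 45206)]

theorem ok3 : check 3 59 50 100000 S3 G3 M3 Q3 = true := by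
  decide +kernel

end Pool.Agent.H70.FS
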