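import Pool.Agent.H81.RE.Close

/-!
# Reach sets with bounded numbers

`RA s B N x`: the vertices of `B` reached from `x` by walks with at most `N T` steps of multiplicity
at most `T`, for all `T`; `LL s B N` is the number of the pairs of `B` missed. If the set `B` is
minimal then `∑_{j < K} LL (N + e_j) ≤ (K - c) LL N`, `e_j T = 1` for `j < T`, and if there is no
closed walk then `LL N + LL N' ≥ |B| (|B| - 1)` as soon as `N T + N' T ≤ T` for all `T`.
-/

set_option autoImplicit false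

namespace Pool.Agent.H70.FS

open Finset Pool.Agent.H81.RD Pool.Agent.H81.RE

variable {V : Type} [DecidableEq V]

open Classical in
/-- the vertices of `B` reached from `x` with the numbers `N` -/
noncomputable def RA (s : V → V → ℕ) (B : Finset V) (N : ℕ → ℕ) (x : V) : Finset V :=
  B.filter fun y => ∃ (N' : ℕ → ℕ) (M : ℕ), W s x N' M y ∧ ∀ T, N' T ≤ N T

/-- the number of the pairs missed -/
noncomputable def LL (s : V → V → ℕ) (B : Finset V) (N : ℕ → ℕ) : ℝ :=
  ∑ x ∈ B, ((B \ RA s B N x).card : ℝ)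

theorem mem_RA {s : V → V → ℕ} {B : Finset V} {N : ℕ → ℕ} {x y : V} :
    y ∈ RA s B N x ↔ y ∈ B ∧ ∃ (N' : ℕ → ℕ) (M : ℕ), W s x N' M y ∧ ∀ T, N' T ≤ N T := by
  classical
  unfold RA
  rw [mem_filter]

theorem RA_subset {s : V → V → ℕ} {B : Finset V} {N : ℕ → ℕ} {x : V} : RA s B N x ⊆ B :=
  fun _ h => (mem_RA.mp h).1

theorem self_mem_RA {s : V → V → ℕ} {B : Finset V} {N : ℕ → ℕ} {x : V} (hx : x ∈ B) :
    x ∈ RA s B N x :=
  mem_RA.mpr ⟨hx, _, 0, W.refl, fun _ => Nat.zero_le _⟩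

theorem LL_nonneg (s : V → V → ℕ) (B : Finset V) (N : ℕ → ℕ) : 0 ≤ LL s B N :=
  sum_nonneg fun _ _ => Nat.cast_nonneg _

theorem RA_mono {s : V → V → ℕ} {B : Finset V} {N N' : ℕ → ℕ} (h : ∀ T, N T ≤ N' T) (x : V) :
    RA s B N x ⊆ RA s B N' x := by
  intro y hy
  obtain ⟨hB, N1, M, hW, hN⟩ := mem_RA.mp hy
  exact mem_RA.mpr ⟨hB, N1, M, hW, fun T => (hN T).trans (h T)⟩

theorem LL_mono {s : V → V → ℕ} {B : Finset V} {N N' : ℕ → ℕ} (h : ∀ T, N T ≤ N' T) :
    LL s B N' ≤ LL s B N :=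
  sum_le_sum fun x _ => by
    exact_mod_cast card_le_card (sdiff_subset_sdiff (Subset.refl B) (RA_mono h x))

theorem LL_le {s : V → V → ℕ} {B : Finset V} (N : ℕ → ℕ) :
    LL s B N ≤ (B.card : ℝ) * ((B.card : ℝ) - 1) := by
  have h1 : ∀ x ∈ B, ((B \ RA s B N x).card : ℝ) ≤ (B.card : ℝ) - 1 := by
    intro x hx
    have h2 : ({x} : Finset V) ⊆ RA s B N x := by
      rw [singleton_subset_iff]
      exact self_mem_RA hx
    have h3 := card_le_card (sdiff_subset_sdiff (Subset.refl B) h2)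
    have h6 : (B \ {x}).card = B.card - 1 := by
      rw [card_sdiff_of_subset (by simpa using hx), card_singleton]
    rw [h6] at h3
    have h4 : 1 ≤ B.card := card_pos.mpr ⟨x, hx⟩
    have h5 : ((B \ RA s B N x).card : ℝ) ≤ ((B.card - 1 : ℕ) : ℝ) := by exact_mod_cast h3
    rw [Nat.cast_sub h4, Nat.cast_one] at h5
    exact h5
  refine (sum_le_sum h1).trans (le_of_eq ?_)
  rw [sum_const, nsmul_eq_mul]

theorem LL_pair {s : V → V → ℕ} {B : Finset V}
    (hno : ∀ (v : V) (N : ℕ → ℕ) (L : ℕ), 0 < L → W s v N L v → ∃ T : ℕ, T < N T)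
    {N N' : ℕ → ℕ} (h : ∀ T, N T + N' T ≤ T) :
    (B.card : ℝ) * ((B.card : ℝ) - 1) ≤ LL s B N + LL s B N' := by
  have h1 := pair_count B (RA s B N) (RA s B N') (fun _ _ => RA_subset) (fun _ _ => RA_subset) (by
    intro v _ y _ hvy h2 h3
    obtain ⟨-, N1, M1, hW1, hN1⟩ := mem_RA.mp h2
    obtain ⟨-, N2, M2, hW2, hN2⟩ := mem_RA.mp h3
    obtain ⟨T, hT⟩ := hno v _ (M1 + M2) (by
      by_contra h4
      exact hvy (hW1.eq_of_zero (by omega))) (hW1.trans hW2)
    have h5 := h T
    have h6 := hN1 T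
    have h7 := hN2 T
    omega)
  rw [sum_add_distrib] at h1
  exact h1

theorem LL_grow {s : V → V → ℕ} {B : Finset V} {c : ℝ} {K : ℕ} (hK : ∀ u y, s u y ≤ K)
    (hexit : ∀ R ⊆ B, R.Nonempty → R ≠ B →
      ∃ u ∈ R, c * ((B \ R).card : ℝ) ≤ ∑ y ∈ B \ R, (s u y : ℝ)) (N : ℕ → ℕ) :
    ∑ j ∈ range K, LL s B (fun T => N T + if j < T then 1 else 0) ≤ (K - c) * LL s B N := by
  classical
  unfold LL
  rw [sum_comm, mul_sum]
  refine sum_le_sum fun x hx => ?_
  obtain ⟨R, hR⟩ : ∃ R, R = RA s B N x := ⟨_, rfl⟩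
  rw [← hR]
  by_cases hRB : R = B
  · have h1 : ∀ j ∈ range K,
        ((B \ RA s B (fun T => N T + if j < T then 1 else 0) x).card : ℝ) = 0 := by
      intro j _
      have h2 : B ⊆ RA s B (fun T => N T + if j < T then 1 else 0) x := by
        have h3 := RA_mono (s := s) (B := B) (N := N)
          (N' := fun T => N T + if j < T then 1 else 0) (fun T => Nat.le_add_right _ _) x
        rw [← hR, hRB] at h3
        exact h3
      rw [sdiff_eq_empty_iff_subset.mpr h2]
      simp
    rw [sum_eq_zero h1, hRB]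
    simp
  · obtain ⟨u, hu, hexu⟩ := hexit R (hR ▸ RA_subset) ⟨x, hR ▸ self_mem_RA hx⟩ hRB
    have h1 : ∀ j ∈ range K,
        ((B \ RA s B (fun T => N T + if j < T then 1 else 0) x).card : ℝ) ≤
          ∑ y ∈ B \ R, if s u y ≤ j then (1 : ℝ) else 0 := by
      intro j _
      rw [sum_boole]
      have h2 : B \ RA s B (fun T => N T + if j < T then 1 else 0) x ⊆
          (B \ R).filter fun y => s u y ≤ j := by
        intro y hy
        rw [mem_sdiff] at hy
        have h3 : y ∉ R := by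
          intro h4
          rw [hR] at h4
          exact hy.2 (RA_mono (fun T => Nat.le_add_right _ _) x h4)
        rw [mem_filter, mem_sdiff]
        refine ⟨⟨hy.1, h3⟩, ?_⟩
        by_contra h4
        push Not at h4
        rw [hR] at hu
        obtain ⟨-, N1, M, hW, hN⟩ := mem_RA.mp hu
        refine hy.2 (mem_RA.mpr ⟨hy.1, _, _,
          W.step hW (lt_of_le_of_lt (Nat.zero_le _) h4), fun T => ?_⟩)
        have h5 := hN T
        have h6 : (if s u y ≤ T then 1 else 0) ≤ if j < T then 1 else 0 := by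
          by_cases h7 : s u y ≤ T
          · rw [if_pos h7, if_pos (lt_of_lt_of_le h4 h7)]
          · rw [if_neg h7]
            exact Nat.zero_le _
        exact Nat.add_le_add h5 h6
      exact_mod_cast card_le_card h2
    refine (sum_le_sum h1).trans ?_
    rw [sum_comm]
    have h2 : ∀ y ∈ B \ R, ∑ j ∈ range K, (if s u y ≤ j then (1 : ℝ) else 0) =
        (K : ℝ) - s u y := by
      intro y _
      rw [sum_boole]
      have h3 : (range K).filter (fun j => s u y ≤ j) = Ico (s u y) K := by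
        ext j
        rw [mem_filter, mem_range, mem_Ico]
        exact and_comm
      rw [h3, Nat.card_Ico, Nat.cast_sub (hK u y)]
    rw [sum_congr rfl h2, sum_sub_distrib, sum_const, nsmul_eq_mul]
    linarith

end Pool.Agent.H70.FS
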